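import Pool.Agent.Helper60.SB.Defs3

/-!
Module U16: summation over the levels and asymptotics of the upper bounds.
-/

open Finset MeasureTheory
open scoped ENNReal Real

namespace Pool.Agent.Helper7.SB

open Pool.Agent.Helper60.SB

/-- powers are dominated by exponentials -/
private theorem poly_exp (p η : ℝ) (hp : 0 ≤ p) (hη : 0 < η) :
    ∃ M : ℝ, 0 < M ∧ ∀ i : ℕ, ((i : ℝ) + 1) ^ p ≤ M * (2 : ℝ) ^ (η * i) := by
  set s : ℝ := η * Real.log 2 / (p + 1) with hs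
  have hl : 0 < Real.log 2 := Real.log_pos (by norm_num)
  have hs0 : 0 < s := by positivity
  refine ⟨s⁻¹ ^ p * (2 : ℝ) ^ η, by positivity, fun i => ?_⟩
  have h1 : (i : ℝ) + 1 ≤ s⁻¹ * Real.exp (s * (i + 1)) := by
    rw [← div_eq_inv_mul, le_div_iff₀ hs0]
    have := Real.add_one_le_exp (s * ((i : ℝ) + 1))
    linarith
  have h2 : ((i : ℝ) + 1) ^ p ≤ (s⁻¹ * Real.exp (s * (i + 1))) ^ p :=
    Real.rpow_le_rpow (by positivity) h1 hp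
  have h3 : (s⁻¹ * Real.exp (s * ((i : ℝ) + 1))) ^ p = s⁻¹ ^ p * Real.exp (s * p * (i + 1)) := by
    rw [Real.mul_rpow (by positivity) (by positivity), ← Real.exp_mul]
    congr 2
    ring
  have h4 : Real.exp (s * p * ((i : ℝ) + 1)) ≤ (2 : ℝ) ^ η * (2 : ℝ) ^ (η * i) := by
    rw [← Real.rpow_add (by norm_num), Real.rpow_def_of_pos (by norm_num)]
    refine Real.exp_le_exp.mpr ?_
    have h5 : s * p ≤ η * Real.log 2 := by
      rw [hs, div_mul_eq_mul_div, div_le_iff₀ (by positivity)]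
      have : 0 ≤ η * Real.log 2 := by positivity
      nlinarith
    have h6 : (0 : ℝ) ≤ (i : ℝ) + 1 := by positivity
    have := mul_le_mul_of_nonneg_right h5 h6
    linarith
  calc ((i : ℝ) + 1) ^ p ≤ s⁻¹ ^ p * Real.exp (s * p * (i + 1)) := h2.trans_eq h3
    _ ≤ s⁻¹ ^ p * ((2 : ℝ) ^ η * (2 : ℝ) ^ (η * i)) :=
        mul_le_mul_of_nonneg_left h4 (by positivity)
    _ = _ := by ring

private theorem sum_bound (p η : ℝ) (hp : 0 ≤ p) (hη : 0 < η) :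
    ∃ M : ℝ, 0 < M ∧ ∀ N : ℕ, ∑ i ∈ range N, ((i : ℝ) + 1) ^ p * (2 : ℝ) ^ (-(η * i)) ≤ M := by
  obtain ⟨M, hM, h⟩ := poly_exp p (η / 2) hp (by positivity)
  set x : ℝ := (2 : ℝ) ^ (-(η / 2)) with hx
  have hx0 : 0 < x := by positivity
  have hx1 : x < 1 := Real.rpow_lt_one_of_one_lt_of_neg (by norm_num) (by linarith)
  refine ⟨M * (1 - x)⁻¹, by have : 0 < 1 - x := by linarith
                            positivity, fun N => ?_⟩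
  have h1 : ∀ i : ℕ, ((i : ℝ) + 1) ^ p * (2 : ℝ) ^ (-(η * i)) ≤ M * x ^ i := by
    intro i
    have h2 : x ^ i = (2 : ℝ) ^ (η / 2 * i) * (2 : ℝ) ^ (-(η * i)) := by
      rw [hx, ← Real.rpow_natCast, ← Real.rpow_mul (by norm_num), ← Real.rpow_add (by norm_num)]
      congr 1
      ring
    rw [h2, ← mul_assoc]
    exact mul_le_mul_of_nonneg_right (h i) (by positivity)
  calc ∑ i ∈ range N, ((i : ℝ) + 1) ^ p * (2 : ℝ) ^ (-(η * i))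
      ≤ ∑ i ∈ range N, M * x ^ i := Finset.sum_le_sum fun i _ => h1 i
    _ = M * ∑ i ∈ range N, x ^ i := by rw [Finset.mul_sum]
    _ ≤ M * (1 - x)⁻¹ := by
        refine mul_le_mul_of_nonneg_left ?_ hM.le
        rw [← tsum_geometric_of_lt_one hx0.le hx1]
        exact (summable_geometric_of_lt_one hx0.le hx1).sum_le_tsum _
          (fun i _ => by positivity)

/-- coverings of sums -/
private theorem cov_sum {d : ℕ} (S : ℕ → Set ((Fin d → ℝ) → ℂ)) (ε K c : ℕ → ℝ)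
    (hc : ∀ m, 0 ≤ c m) (h : ∀ m, CovF (S m) (ε m) (K m)) (J : ℕ) :
    ∃ t : Finset ((Fin d → ℝ) → ℂ), (t.card : ℝ) ≤ Real.exp (∑ m ∈ range J, K m) ∧
      (∀ y ∈ t, MemLp y ⊤ (tor d)) ∧ ∀ g : ℕ → (Fin d → ℝ) → ℂ, (∀ m, g m ∈ S m) →
        ∃ y ∈ t, ∀ x, ‖∑ m ∈ range J, (c m : ℂ) * g m x - y x‖ ≤ ∑ m ∈ range J, c m * ε m := by
  classical
  induction J with
  | zero =>
    refine ⟨{0}, by simp, ?_, fun g _ => ⟨0, by simp, fun x => by simp⟩⟩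
    intro y hy
    rw [Finset.mem_singleton.mp hy]
    exact MemLp.zero
  | succ J ih =>
    obtain ⟨t, h1, h2, h3⟩ := ih
    obtain ⟨t', h1', h2', h3'⟩ := h J
    refine ⟨Finset.image₂ (fun y z => y + (c J : ℂ) • z) t t', ?_, ?_, ?_⟩
    · rw [Finset.sum_range_succ, Real.exp_add]
      have := Finset.card_image₂_le (fun y z : (Fin d → ℝ) → ℂ => y + (c J : ℂ) • z) t t'
      calc ((Finset.image₂ (fun y z => y + (c J : ℂ) • z) t t').card : ℝ)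
          ≤ ((t.card * t'.card : ℕ) : ℝ) := by exact_mod_cast this
        _ = t.card * t'.card := by push_cast; ring
        _ ≤ _ := mul_le_mul h1 h1' (by positivity) (by positivity)
    · intro w hw
      obtain ⟨y, hy, z, hz, rfl⟩ := Finset.mem_image₂.mp hw
      exact (h2 y hy).add ((h2' z hz).const_smul _)
    · intro g hg
      obtain ⟨y, hy, hy'⟩ := h3 g hg
      obtain ⟨z, hz, hz'⟩ := h3' (g J) (hg J)
      refine ⟨y + (c J : ℂ) • z, Finset.mem_image₂_of_mem hy hz, fun x => ?_⟩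
      rw [Finset.sum_range_succ, Finset.sum_range_succ]
      have h4 : ∑ m ∈ range J, (c m : ℂ) * g m x + (c J : ℂ) * g J x -
          (y + (c J : ℂ) • z) x = (∑ m ∈ range J, (c m : ℂ) * g m x - y x) +
            (c J : ℂ) * (g J x - z x) := by
        simp only [Pi.add_apply, Pi.smul_apply, smul_eq_mul]
        ring
      rw [h4]
      refine (norm_add_le _ _).trans (add_le_add (hy' x) ?_)
      rw [norm_mul, Complex.norm_real, Real.norm_of_nonneg (hc J)]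
      exact mul_le_mul_of_nonneg_left (hz' x) (hc J)

/-- from coverings to entropy numbers -/
private theorem entropy_le {d : ℕ} (F : Set ((Fin d → ℝ) → ℂ)) (n : ℕ) (ε : ℝ) (hε : 0 < ε)
    (t : Finset ((Fin d → ℝ) → ℂ)) (ht : t.card ≤ 2 ^ n) (hm : ∀ y ∈ t, MemLp y ⊤ (tor d))
    (h : ∀ f ∈ F, ∃ y ∈ t, ∀ᵐ x ∂(tor d), ‖f x - y x‖ ≤ ε) :
    entropyNumber n F ≤ ENNReal.ofReal ε := by
  classical
  refine sInf_le ⟨by simpa using hε, fun j => if hj : (j : ℕ) < t.card then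
    (t.equivFin.symm ⟨j, hj⟩ : (Fin d → ℝ) → ℂ) else 0, fun j => ?_, fun f hf => ?_⟩
  · simp only
    split_ifs with hj
    · exact hm _ (t.equivFin.symm ⟨j, hj⟩).2
    · exact MemLp.zero
  · obtain ⟨y, hy, hyx⟩ := h f hf
    have h1 := (t.equivFin ⟨y, hy⟩).2
    refine ⟨⟨t.equivFin ⟨y, hy⟩, lt_of_lt_of_le h1 ht⟩, ?_⟩
    simp only [h1, dite_true, Fin.eta, Equiv.symm_apply_apply]
    rw [eLpNorm_exponent_top]
    exact eLpNormEssSup_le_of_ae_bound (by simpa using hyx)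

/-- splitting of a sum at the level `m₀` -/
private theorem split_sum (m₀ N : ℕ) (f u v : ℕ → ℝ) (A B c M₁ M₂ : ℝ) (hA : 0 ≤ A) (hB : 0 ≤ B)
    (hlow : ∀ i, i ≤ m₀ → f (m₀ - i) ≤ A * u i + c)
    (hhigh : ∀ i, f (m₀ + 1 + i) ≤ B * v (i + 1) + c) (hu : ∀ N, ∑ i ∈ range N, u i ≤ M₁)
    (hv : ∀ N, ∑ i ∈ range N, v i ≤ M₂) (hv0 : 0 ≤ v 0) :
    ∑ m ∈ range (m₀ + 1 + N), f m ≤ A * M₁ + B * M₂ + c * (((m₀ + 1 + N : ℕ)) : ℝ) := by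
  rw [Finset.sum_range_add, ← Finset.sum_range_reflect]
  have h1 : ∑ i ∈ range (m₀ + 1), f (m₀ + 1 - 1 - i) ≤ A * M₁ + c * (m₀ + 1) := by
    calc ∑ i ∈ range (m₀ + 1), f (m₀ + 1 - 1 - i) ≤ ∑ i ∈ range (m₀ + 1), (A * u i + c) := by
          refine Finset.sum_le_sum fun i hi => ?_
          rw [Nat.add_sub_cancel]
          exact hlow i (by have := Finset.mem_range.mp hi; omega)
      _ = A * ∑ i ∈ range (m₀ + 1), u i + c * (m₀ + 1) := by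
          rw [Finset.sum_add_distrib, ← Finset.mul_sum, Finset.sum_const, Finset.card_range,
            nsmul_eq_mul]
          push_cast
          ring
      _ ≤ _ := add_le_add (mul_le_mul_of_nonneg_left (hu _) hA) le_rfl
  have h2 : ∑ i ∈ range N, f (m₀ + 1 + i) ≤ B * M₂ + c * N := by
    calc ∑ i ∈ range N, f (m₀ + 1 + i) ≤ ∑ i ∈ range N, (B * v (i + 1) + c) :=
          Finset.sum_le_sum fun i _ => hhigh i
      _ = B * ∑ i ∈ range N, v (i + 1) + c * N := by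
          rw [Finset.sum_add_distrib, ← Finset.mul_sum, Finset.sum_const, Finset.card_range,
            nsmul_eq_mul]
          ring
      _ ≤ _ := by
          refine add_le_add (mul_le_mul_of_nonneg_left ?_ hB) le_rfl
          have := hv (N + 1)
          rw [Finset.sum_range_succ'] at this
          linarith
  refine (add_le_add h1 h2).trans (le_of_eq ?_)
  push_cast
  ring

/-- the choice of the accuracies -/
private noncomputable def jj (δ : ℝ) (β m₀ m : ℕ) : ℕ :=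
  if m ≤ m₀ then β * (m₀ - m) else ⌈(1 + δ) * ((m : ℝ) - m₀)⌉₊

private theorem jj_low (δ : ℝ) (β m₀ i : ℕ) (hi : i ≤ m₀) : jj δ β m₀ (m₀ - i) = β * i := by
  unfold jj
  rw [if_pos (Nat.sub_le _ _), Nat.sub_sub_self hi]

private theorem jj_high (δ : ℝ) (hδ : 0 < δ) (β m₀ i : ℕ) :
    (1 + δ) * ((i + 1 : ℕ) : ℝ) ≤ jj δ β m₀ (m₀ + 1 + i) ∧
      (jj δ β m₀ (m₀ + 1 + i) : ℝ) ≤ (1 + δ) * ((i + 1 : ℕ) : ℝ) + 1 := by
  unfold jj
  rw [if_neg (by omega)]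
  have h3 : ((m₀ + 1 + i : ℕ) : ℝ) - m₀ = ((i + 1 : ℕ) : ℝ) := by push_cast; ring
  rw [h3]
  exact ⟨Nat.le_ceil _, (Nat.ceil_lt_add_one (by positivity)).le⟩

/-- the number of bits -/
private noncomputable def kf (e : ℕ) (C δ : ℝ) (β m₀ m : ℕ) : ℝ :=
  if m ≤ m₀ then C * (1 + jj δ β m₀ m) * ((m : ℝ) + 1) ^ e * 2 ^ m + 1
  else C * (1 + jj δ β m₀ m) * ((m : ℝ) + 1) ^ e * (2 : ℝ) ^ ((m : ℝ) - jj δ β m₀ m) + 1

/-- the accuracy -/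
private noncomputable def ef (a κ C δ : ℝ) (β m₀ m : ℕ) : ℝ :=
  if m ≤ m₀ then C * ((m : ℝ) + 1) ^ a * (2 : ℝ) ^ (-(jj δ β m₀ m : ℝ))
  else C * ((m : ℝ) + 1) ^ a * (2 : ℝ) ^ (κ * jj δ β m₀ m)

private theorem sum_kf (e : ℕ) (C δ : ℝ) (β : ℕ) (hC : 1 ≤ C) (hδ : 0 < δ) :
    ∃ M : ℝ, 0 < M ∧ ∀ m₀ N : ℕ, ∑ m ∈ range (m₀ + 1 + N), kf e C δ β m₀ m ≤
      M * (((m₀ : ℝ) + 1) ^ e * 2 ^ m₀) + ((m₀ + 1 + N : ℕ) : ℝ) := by
  obtain ⟨M₁, hM₁, s₁⟩ := sum_bound 1 1 (by norm_num) (by norm_num)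
  obtain ⟨M₂, hM₂, s₂⟩ := sum_bound (e + 1) δ (by positivity) hδ
  refine ⟨C * (1 + β) * M₁ + C * (2 + δ) * M₂, by positivity, fun m₀ N => ?_⟩
  have h := split_sum m₀ N (kf e C δ β m₀) (fun i => ((i : ℝ) + 1) ^ (1 : ℝ) *
    (2 : ℝ) ^ (-(1 * (i : ℝ)))) (fun i => ((i : ℝ) + 1) ^ ((e : ℝ) + 1) * (2 : ℝ) ^ (-(δ * (i : ℝ))))
    (C * (1 + β) * (((m₀ : ℝ) + 1) ^ e * 2 ^ m₀)) (C * (2 + δ) * (((m₀ : ℝ) + 1) ^ e * 2 ^ m₀)) 1
    M₁ M₂ (by positivity) (by positivity) ?_ ?_ s₁ s₂ (by positivity)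
  · refine h.trans (le_of_eq ?_)
    ring
  · intro i hi
    have h2 : m₀ - i ≤ m₀ := Nat.sub_le _ _
    unfold kf
    rw [if_pos h2, jj_low _ _ _ _ hi]
    have h4 : (2 : ℝ) ^ (m₀ - i) = 2 ^ m₀ * (2 : ℝ) ^ (-(1 * (i : ℝ))) := by
      rw [one_mul, Real.rpow_neg (by norm_num), Real.rpow_natCast, pow_sub₀ _ (by norm_num) hi]
    rw [h4, Real.rpow_one]
    have h5 : (((m₀ - i : ℕ) : ℝ) + 1) ^ e ≤ ((m₀ : ℝ) + 1) ^ e := by
      refine pow_le_pow_left₀ (by positivity) ?_ _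
      have : ((m₀ - i : ℕ) : ℝ) ≤ m₀ := by exact_mod_cast h2
      linarith
    have h6 : 1 + ((β * i : ℕ) : ℝ) ≤ (1 + β) * (i + 1) := by
      push_cast
      have h0 : (0 : ℝ) ≤ β := by positivity
      have h1 : (0 : ℝ) ≤ i := by positivity
      nlinarith
    have h7 : C * (1 + ((β * i : ℕ) : ℝ)) * (((m₀ - i : ℕ) : ℝ) + 1) ^ e ≤
        C * ((1 + β) * (i + 1)) * ((m₀ : ℝ) + 1) ^ e := by
      gcongr
    have h8 : (0 : ℝ) ≤ 2 ^ m₀ * (2 : ℝ) ^ (-(1 * (i : ℝ))) := by positivity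
    have h9 := mul_le_mul_of_nonneg_right h7 h8
    refine add_le_add (h9.trans (le_of_eq ?_)) le_rfl
    ring
  · intro i
    have h2 : ¬ m₀ + 1 + i ≤ m₀ := by omega
    obtain ⟨h4, h5⟩ := jj_high δ hδ β m₀ i
    unfold kf
    rw [if_neg h2]
    set x : ℝ := ((i + 1 : ℕ) : ℝ) with hx
    have hx0 : 0 ≤ x := by positivity
    set J : ℝ := (jj δ β m₀ (m₀ + 1 + i) : ℝ) with hJ
    have h6 : ((m₀ + 1 + i : ℕ) : ℝ) = m₀ + x := by rw [hx]; push_cast; ring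
    rw [h6]
    have hm0 : (0 : ℝ) ≤ m₀ := by positivity
    have h7 : (m₀ : ℝ) + x + 1 ≤ (m₀ + 1) * (x + 1) := by nlinarith
    have h8 : ((m₀ : ℝ) + x + 1) ^ e ≤ ((m₀ : ℝ) + 1) ^ e * (x + 1) ^ e := by
      rw [← mul_pow]
      exact pow_le_pow_left₀ (by positivity) h7 _
    have h9 : (2 : ℝ) ^ ((m₀ : ℝ) + x - J) ≤ 2 ^ m₀ * (2 : ℝ) ^ (-(δ * x)) := by
      rw [← Real.rpow_natCast 2 m₀, ← Real.rpow_add (by norm_num)]
      exact Real.rpow_le_rpow_of_exponent_le (by norm_num) (by linarith)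
    have h10 : 1 + J ≤ (2 + δ) * (x + 1) := by nlinarith
    have h11 : (x + 1) ^ ((e : ℝ) + 1) = (x + 1) ^ e * (x + 1) := by
      rw [Real.rpow_add_one (by positivity), Real.rpow_natCast]
    rw [h11]
    have hJ0 : 0 ≤ J := by positivity
    have h12 : C * (1 + J) * ((m₀ : ℝ) + x + 1) ^ e * (2 : ℝ) ^ ((m₀ : ℝ) + x - J) ≤
        C * ((2 + δ) * (x + 1)) * (((m₀ : ℝ) + 1) ^ e * (x + 1) ^ e) *
          (2 ^ m₀ * (2 : ℝ) ^ (-(δ * x))) := by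
      gcongr
    refine add_le_add (h12.trans (le_of_eq ?_)) le_rfl
    ring

private theorem sum_ef (r a κ C δ : ℝ) (β : ℕ) (hC : 1 ≤ C) (hδ : 0 < δ) (ha : 0 ≤ a)
    (hκ : 0 < κ) (hκδ : κ * (1 + δ) < r) (hβ : r < β) :
    ∃ M : ℝ, 0 < M ∧ ∀ m₀ N : ℕ,
      ∑ m ∈ range (m₀ + 1 + N), (2 : ℝ) ^ (-(r * m)) * ef a κ C δ β m₀ m ≤
        M * (((m₀ : ℝ) + 1) ^ a * (2 : ℝ) ^ (-(r * m₀))) := by
  obtain ⟨M₁, hM₁, s₁⟩ := sum_bound 0 (β - r) le_rfl (by linarith)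
  obtain ⟨M₂, hM₂, s₂⟩ := sum_bound a (r - κ * (1 + δ)) ha (by linarith)
  refine ⟨C * M₁ + C * (2 : ℝ) ^ κ * M₂, by positivity, fun m₀ N => ?_⟩
  have h := split_sum m₀ N (fun m => (2 : ℝ) ^ (-(r * m)) * ef a κ C δ β m₀ m)
    (fun i => ((i : ℝ) + 1) ^ (0 : ℝ) * (2 : ℝ) ^ (-((β - r) * (i : ℝ))))
    (fun i => ((i : ℝ) + 1) ^ a * (2 : ℝ) ^ (-((r - κ * (1 + δ)) * (i : ℝ))))
    (C * (((m₀ : ℝ) + 1) ^ a * (2 : ℝ) ^ (-(r * m₀))))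
    (C * (2 : ℝ) ^ κ * (((m₀ : ℝ) + 1) ^ a * (2 : ℝ) ^ (-(r * m₀)))) 0
    M₁ M₂ (by positivity) (by positivity) ?_ ?_ s₁ s₂ (by positivity)
  · refine h.trans (le_of_eq ?_)
    ring
  · intro i hi
    have h2 : m₀ - i ≤ m₀ := Nat.sub_le _ _
    simp only [ef]
    rw [if_pos h2, jj_low _ _ _ _ hi, Real.rpow_zero, one_mul, add_zero]
    have h3 : ((m₀ - i : ℕ) : ℝ) = m₀ - i := by push_cast [hi]; ring
    have h4 : (((m₀ - i : ℕ) : ℝ) + 1) ^ a ≤ ((m₀ : ℝ) + 1) ^ a := by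
      refine Real.rpow_le_rpow (by positivity) ?_ ha
      rw [h3]
      have : (0 : ℝ) ≤ i := by positivity
      linarith
    have h5 : (2 : ℝ) ^ (-(r * ((m₀ - i : ℕ) : ℝ))) * (2 : ℝ) ^ (-((β * i : ℕ) : ℝ)) =
        (2 : ℝ) ^ (-(r * m₀)) * (2 : ℝ) ^ (-((β - r) * (i : ℝ))) := by
      rw [← Real.rpow_add (by norm_num), ← Real.rpow_add (by norm_num), h3]
      congr 1
      push_cast
      ring
    calc (2 : ℝ) ^ (-(r * ((m₀ - i : ℕ) : ℝ))) * (C * (((m₀ - i : ℕ) : ℝ) + 1) ^ a *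
          (2 : ℝ) ^ (-((β * i : ℕ) : ℝ)))
        = C * (((m₀ - i : ℕ) : ℝ) + 1) ^ a * ((2 : ℝ) ^ (-(r * ((m₀ - i : ℕ) : ℝ))) *
          (2 : ℝ) ^ (-((β * i : ℕ) : ℝ))) := by ring
      _ ≤ C * ((m₀ : ℝ) + 1) ^ a * ((2 : ℝ) ^ (-(r * ((m₀ - i : ℕ) : ℝ))) *
          (2 : ℝ) ^ (-((β * i : ℕ) : ℝ))) := by gcongr
      _ = _ := by rw [h5]; ring
  · intro i
    have h2 : ¬ m₀ + 1 + i ≤ m₀ := by omega
    obtain ⟨h4, h5⟩ := jj_high δ hδ β m₀ i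
    simp only [ef]
    rw [if_neg h2, add_zero]
    set x : ℝ := ((i + 1 : ℕ) : ℝ) with hx
    have hx0 : 0 ≤ x := by positivity
    set J : ℝ := (jj δ β m₀ (m₀ + 1 + i) : ℝ) with hJ
    have h6 : ((m₀ + 1 + i : ℕ) : ℝ) = m₀ + x := by rw [hx]; push_cast; ring
    rw [h6]
    have hm0 : (0 : ℝ) ≤ m₀ := by positivity
    have h7 : (m₀ : ℝ) + x + 1 ≤ (m₀ + 1) * (x + 1) := by nlinarith
    have h8 : ((m₀ : ℝ) + x + 1) ^ a ≤ ((m₀ : ℝ) + 1) ^ a * (x + 1) ^ a := by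
      rw [← Real.mul_rpow (by positivity) (by positivity)]
      exact Real.rpow_le_rpow (by positivity) h7 ha
    have h9 : (2 : ℝ) ^ (κ * J) ≤ (2 : ℝ) ^ κ * (2 : ℝ) ^ (κ * (1 + δ) * x) := by
      rw [← Real.rpow_add (by norm_num)]
      refine Real.rpow_le_rpow_of_exponent_le (by norm_num) ?_
      have := mul_le_mul_of_nonneg_left h5 hκ.le
      linarith
    have h10 : (2 : ℝ) ^ (-(r * (m₀ + x))) * (2 : ℝ) ^ (κ * (1 + δ) * x) =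
        (2 : ℝ) ^ (-(r * m₀)) * (2 : ℝ) ^ (-((r - κ * (1 + δ)) * x)) := by
      rw [← Real.rpow_add (by norm_num), ← Real.rpow_add (by norm_num)]
      congr 1
      ring
    calc (2 : ℝ) ^ (-(r * (m₀ + x))) * (C * ((m₀ : ℝ) + x + 1) ^ a * (2 : ℝ) ^ (κ * J))
        ≤ (2 : ℝ) ^ (-(r * (m₀ + x))) * (C * (((m₀ : ℝ) + 1) ^ a * (x + 1) ^ a) *
          ((2 : ℝ) ^ κ * (2 : ℝ) ^ (κ * (1 + δ) * x))) := by gcongr
      _ = C * (2 : ℝ) ^ κ * ((m₀ : ℝ) + 1) ^ a * (x + 1) ^ a *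
          ((2 : ℝ) ^ (-(r * (m₀ + x))) * (2 : ℝ) ^ (κ * (1 + δ) * x)) := by ring
      _ = _ := by rw [h10]; ring

/-- the statement for a given number of levels -/
private theorem levels (e : ℕ) (r κ a b C : ℝ) (hκ : 0 < κ) (hκr : κ < r) (ha : 0 ≤ a)
    (hb : 0 ≤ b) (hC : 1 ≤ C) : ∃ C₁ C₂ δ : ℝ, ∃ β lam : ℕ, 1 ≤ C₁ ∧ 0 < C₂ ∧
    ∀ m₀ : ℕ, 1 ≤ m₀ →
      ∑ m ∈ range (lam * m₀), kf e C δ β m₀ m ≤ C₁ * (((m₀ : ℝ) + 1) ^ e * 2 ^ m₀) ∧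
      ∑ m ∈ range (lam * m₀), (2 : ℝ) ^ (-(r * m)) * ef a κ C δ β m₀ m +
        C * (((lam * m₀ : ℕ) : ℝ) + 1) ^ b * (2 : ℝ) ^ (-((r - κ) * ((lam * m₀ : ℕ) : ℝ))) ≤
        C₂ * (((m₀ : ℝ) + 1) ^ a * (2 : ℝ) ^ (-(r * m₀))) := by
  have hr : 0 < r := hκ.trans hκr
  set δ : ℝ := (r - κ) / (2 * κ) with hδ
  have hrκ : 0 < r - κ := by linarith
  have hδ0 : 0 < δ := by positivity
  have hκδ : κ * (1 + δ) = (r + κ) / 2 := by
    rw [hδ]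
    field_simp
    ring
  set β : ℕ := ⌈r⌉₊ + 1 with hβ
  have hβr : r + 1 ≤ β := by
    rw [hβ]
    push_cast
    linarith [Nat.le_ceil r]
  set lam : ℕ := ⌈2 * r / (r - κ)⌉₊ with hlam
  have hlam' : 2 * r / (r - κ) ≤ lam := Nat.le_ceil _
  have hlam2 : 2 < 2 * r / (r - κ) := by
    rw [lt_div_iff₀ hrκ]
    linarith
  have hlam3 : 3 ≤ lam := by
    have : (2 : ℝ) < lam := hlam2.trans_le hlam'
    exact_mod_cast this
  obtain ⟨M₁, hM₁, s₁⟩ := sum_kf e C δ β hC hδ0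
  obtain ⟨M₂, hM₂, s₂⟩ := sum_ef r a κ C δ β hC hδ0 ha hκ (by linarith) (by linarith)
  obtain ⟨M₅, hM₅, s₅⟩ := poly_exp b ((r - κ) / 2) hb (by positivity)
  have hlam1 : (1 : ℝ) ≤ lam := by exact_mod_cast (by omega : 1 ≤ lam)
  refine ⟨M₁ + lam, M₂ + C * M₅, δ, β, lam, by linarith, by positivity, fun m₀ hm₀ => ?_⟩
  obtain ⟨N, hN⟩ : ∃ N, lam * m₀ = m₀ + 1 + N := by
    refine ⟨lam * m₀ - (m₀ + 1), ?_⟩
    have : 3 * m₀ ≤ lam * m₀ := Nat.mul_le_mul_right _ hlam3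
    omega
  have hm0 : (0 : ℝ) ≤ m₀ := by positivity
  refine ⟨?_, ?_⟩
  · have h1 := s₁ m₀ N
    rw [← hN] at h1
    refine h1.trans ?_
    rw [add_mul]
    refine add_le_add le_rfl ?_
    push_cast
    refine mul_le_mul_of_nonneg_left ?_ (by positivity)
    have h15 : (m₀ : ℝ) ≤ 2 ^ m₀ := by exact_mod_cast (Nat.lt_two_pow_self (n := m₀)).le
    have h16 : (1 : ℝ) ≤ ((m₀ : ℝ) + 1) ^ e := one_le_pow₀ (by linarith)
    nlinarith [(by positivity : (0 : ℝ) ≤ 2 ^ m₀)]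
  · have h1 := s₂ m₀ N
    rw [← hN] at h1
    have h2 := s₅ (lam * m₀)
    have h3 : (2 : ℝ) ^ ((r - κ) / 2 * ((lam * m₀ : ℕ) : ℝ)) *
        (2 : ℝ) ^ (-((r - κ) * ((lam * m₀ : ℕ) : ℝ))) ≤ (2 : ℝ) ^ (-(r * m₀)) := by
      rw [← Real.rpow_add (by norm_num)]
      refine Real.rpow_le_rpow_of_exponent_le (by norm_num) ?_
      rw [div_le_iff₀ hrκ] at hlam'
      push_cast
      have := mul_le_mul_of_nonneg_right hlam' hm0
      nlinarith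
    have h4 : C * (((lam * m₀ : ℕ) : ℝ) + 1) ^ b *
        (2 : ℝ) ^ (-((r - κ) * ((lam * m₀ : ℕ) : ℝ))) ≤ C * M₅ * (2 : ℝ) ^ (-(r * m₀)) := by
      calc C * (((lam * m₀ : ℕ) : ℝ) + 1) ^ b *
          (2 : ℝ) ^ (-((r - κ) * ((lam * m₀ : ℕ) : ℝ)))
          ≤ C * (M₅ * (2 : ℝ) ^ ((r - κ) / 2 * ((lam * m₀ : ℕ) : ℝ))) *
          (2 : ℝ) ^ (-((r - κ) * ((lam * m₀ : ℕ) : ℝ))) := by gcongr
        _ = C * M₅ * ((2 : ℝ) ^ ((r - κ) / 2 * ((lam * m₀ : ℕ) : ℝ)) *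
          (2 : ℝ) ^ (-((r - κ) * ((lam * m₀ : ℕ) : ℝ)))) := by ring
        _ ≤ _ := mul_le_mul_of_nonneg_left h3 (by positivity)
    have h5 : (1 : ℝ) ≤ ((m₀ : ℝ) + 1) ^ a := Real.one_le_rpow (by linarith) ha
    have h6 : C * M₅ * (2 : ℝ) ^ (-(r * (m₀ : ℝ))) ≤
        C * M₅ * (((m₀ : ℝ) + 1) ^ a * (2 : ℝ) ^ (-(r * (m₀ : ℝ)))) := by
      refine mul_le_mul_of_nonneg_left ?_ (by positivity)
      exact le_mul_of_one_le_left (by positivity) h5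
    rw [add_mul]
    linarith

/-- choice of `m₀` -/
private theorem choose_level (e : ℕ) (C₁ : ℝ) (hC : 1 ≤ C₁) (n : ℕ)
    (hn : C₁ * (((1 : ℕ) : ℝ) + 1) ^ e * 2 ^ 1 ≤ n * Real.log 2) :
    ∃ m₀ : ℕ, 1 ≤ m₀ ∧ C₁ * (((m₀ : ℝ) + 1) ^ e * 2 ^ m₀) ≤ n * Real.log 2 ∧
      n * Real.log 2 ≤ C₁ * (((m₀ : ℝ) + 2) ^ e * 2 ^ (m₀ + 1)) := by
  classical
  have hex : ∃ m : ℕ, n * Real.log 2 < C₁ * (((m : ℝ) + 1) ^ e * 2 ^ m) := by
    refine ⟨n, ?_⟩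
    have h1 : (n : ℝ) < 2 ^ n := by exact_mod_cast Nat.lt_two_pow_self (n := n)
    have h2 : (1 : ℝ) ≤ ((n : ℝ) + 1) ^ e := one_le_pow₀ (by linarith [(by positivity : (0:ℝ) ≤ n)])
    have h3 : Real.log 2 ≤ 1 := by
      have := Real.log_two_lt_d9
      linarith
    have h4 : (n : ℝ) * Real.log 2 ≤ n * 1 := by gcongr
    have h5 : (2 : ℝ) ^ n ≤ ((n : ℝ) + 1) ^ e * 2 ^ n := le_mul_of_one_le_left (by positivity) h2
    have h6 : ((n : ℝ) + 1) ^ e * 2 ^ n ≤ C₁ * (((n : ℝ) + 1) ^ e * 2 ^ n) :=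
      le_mul_of_one_le_left (by positivity) hC
    linarith
  have hspec := Nat.find_spec hex
  have hne : ∀ m : ℕ, m ≤ 1 → ¬ n * Real.log 2 < C₁ * (((m : ℝ) + 1) ^ e * 2 ^ m) := by
    intro m hm
    rw [not_lt]
    refine le_trans ?_ hn
    have hm' : (m : ℝ) ≤ ((1 : ℕ) : ℝ) := by exact_mod_cast hm
    rw [mul_assoc]
    gcongr
    · norm_num
  have hlt : 1 < Nat.find hex := by
    by_contra hle
    exact hne _ (not_lt.mp hle) hspec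
  obtain ⟨k, hk⟩ : ∃ k, Nat.find hex = k + 1 := ⟨Nat.find hex - 1, by omega⟩
  refine ⟨k, by omega, ?_, ?_⟩
  · have := Nat.find_min hex (m := k) (by omega)
    exact not_lt.mp this
  · rw [hk] at hspec
    refine hspec.le.trans (le_of_eq ?_)
    push_cast
    ring

theorem sum_levels (e : ℕ) (r κ a b C : ℝ) (hκ : 0 < κ) (hκr : κ < r) (ha : 0 ≤ a) (hb : 0 ≤ b)
    (hC : 1 ≤ C) (F : Set ((Fin (e + 1) → ℝ) → ℂ)) (S : ℕ → Set ((Fin (e + 1) → ℝ) → ℂ))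
    (low : ∀ m j : ℕ, CovF (S m) (C * ((m : ℝ) + 1) ^ a * (2 : ℝ) ^ (-(j : ℝ)))
      (C * (1 + j) * ((m : ℝ) + 1) ^ e * 2 ^ m + 1))
    (high : ∀ m j : ℕ, CovF (S m) (C * ((m : ℝ) + 1) ^ a * (2 : ℝ) ^ (κ * j))
      (C * (1 + j) * ((m : ℝ) + 1) ^ e * (2 : ℝ) ^ ((m : ℝ) - j) + 1))
    (dec : ∀ f ∈ F, ∀ J : ℕ, ∃ g : ℕ → (Fin (e + 1) → ℝ) → ℂ, (∀ m, g m ∈ S m) ∧
      ∀ᵐ x ∂(tor (e + 1)), ‖f x - ∑ m ∈ range J, (((2 : ℝ) ^ (-(r * m)) : ℝ) : ℂ) * g m x‖ ≤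
        C * ((J : ℝ) + 1) ^ b * (2 : ℝ) ^ (-((r - κ) * J))) :
    ∃ C' > 0, ∃ n₀ : ℕ, ∀ n ≥ n₀, entropyNumber n F ≤
      ENNReal.ofReal (C' * (n : ℝ) ^ (-r) * Real.log n ^ ((e : ℝ) * r + a)) := by
  have hr : 0 < r := hκ.trans hκr
  obtain ⟨C₁, C₂, δ, β, lam, hC₁, hC₂, hlev⟩ := levels e r κ a b C hκ hκr ha hb hC
  have hl2 : 0 < Real.log 2 := Real.log_pos (by norm_num)
  refine ⟨C₂ * (2 * C₁ / Real.log 2) ^ r * 4 ^ ((e : ℝ) * r + a), by positivity,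
    max 3 ⌈C₁ * (((1 : ℕ) : ℝ) + 1) ^ e * 2 ^ 1 / Real.log 2⌉₊, fun n hn => ?_⟩
  have hn3 : 3 ≤ n := (le_max_left _ _).trans hn
  have hn' : C₁ * (((1 : ℕ) : ℝ) + 1) ^ e * 2 ^ 1 ≤ n * Real.log 2 := by
    have h1 := Nat.le_ceil (C₁ * (((1 : ℕ) : ℝ) + 1) ^ e * 2 ^ 1 / Real.log 2)
    have h2 : ((⌈C₁ * (((1 : ℕ) : ℝ) + 1) ^ e * 2 ^ 1 / Real.log 2⌉₊ : ℕ) : ℝ) ≤ n := by
      exact_mod_cast (le_max_right _ _).trans hn
    rw [← div_le_iff₀ hl2]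
    exact h1.trans h2
  obtain ⟨m₀, hm₀, hlow, hup⟩ := choose_level e C₁ hC₁ n hn'
  obtain ⟨hK, hE⟩ := hlev m₀ hm₀
  have hm0 : (0 : ℝ) ≤ m₀ := by positivity
  have hnR : (3 : ℝ) ≤ n := by exact_mod_cast hn3
  have hlog1 : 1 ≤ Real.log n := by
    rw [Real.le_log_iff_exp_le (by linarith)]
    have := Real.exp_one_lt_d9
    linarith
  -- the covering
  have hcov : ∀ m, CovF (S m) (ef a κ C δ β m₀ m) (kf e C δ β m₀ m) := by
    intro m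
    unfold ef kf
    split_ifs
    · exact low m _
    · exact high m _
  obtain ⟨t, ht1, ht2, ht3⟩ := cov_sum S _ _ (fun m : ℕ => (2 : ℝ) ^ (-(r * m)))
    (fun m => by positivity) hcov (lam * m₀)
  have htc : t.card ≤ 2 ^ n := by
    have h1 : (t.card : ℝ) ≤ Real.exp (n * Real.log 2) :=
      ht1.trans (Real.exp_le_exp.mpr (hK.trans hlow))
    have h2 : Real.exp (n * Real.log 2) = 2 ^ n := by
      rw [mul_comm, Real.exp_mul, Real.exp_log (by norm_num), Real.rpow_natCast]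
    rw [h2] at h1
    exact_mod_cast h1
  have hmain := entropy_le F n (C₂ * (((m₀ : ℝ) + 1) ^ a * (2 : ℝ) ^ (-(r * m₀)))) (by positivity)
    t htc ht2 fun f hf => by
      obtain ⟨g, hg1, hg2⟩ := dec f hf (lam * m₀)
      obtain ⟨y, hy, hyx⟩ := ht3 g hg1
      refine ⟨y, hy, ?_⟩
      filter_upwards [hg2] with x hx
      have h1 := norm_add_le (f x - ∑ m ∈ range (lam * m₀), (((2 : ℝ) ^ (-(r * m)) : ℝ) : ℂ) * g m x)
        (∑ m ∈ range (lam * m₀), (((2 : ℝ) ^ (-(r * m)) : ℝ) : ℂ) * g m x - y x)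
      rw [sub_add_sub_cancel] at h1
      refine h1.trans ?_
      have h2 := hyx x
      linarith
  refine hmain.trans (ENNReal.ofReal_le_ofReal ?_)
  -- asymptotics
  have hnpos : (0 : ℝ) < n := by linarith
  have h1 : (2 : ℝ) ^ m₀ ≤ n := by
    have h2 : (1 : ℝ) ≤ ((m₀ : ℝ) + 1) ^ e := one_le_pow₀ (by linarith)
    have h3 : Real.log 2 ≤ 1 := by
      have := Real.log_two_lt_d9
      linarith
    calc (2 : ℝ) ^ m₀ ≤ ((m₀ : ℝ) + 1) ^ e * 2 ^ m₀ := le_mul_of_one_le_left (by positivity) h2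
      _ ≤ C₁ * (((m₀ : ℝ) + 1) ^ e * 2 ^ m₀) := le_mul_of_one_le_left (by positivity) hC₁
      _ ≤ n * Real.log 2 := hlow
      _ ≤ n * 1 := by gcongr
      _ = n := mul_one _
  have h2 : (m₀ : ℝ) * Real.log 2 ≤ Real.log n := by
    have := Real.log_le_log (by positivity) h1
    rwa [Real.log_pow] at this
  have h3 : (m₀ : ℝ) + 2 ≤ 4 * Real.log n := by
    have h4 : (0.5 : ℝ) ≤ Real.log 2 := by
      have := Real.log_two_gt_d9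
      linarith
    have h5 : (m₀ : ℝ) * 0.5 ≤ m₀ * Real.log 2 := by gcongr
    linarith
  have h4 : (2 : ℝ) ^ (-(m₀ : ℝ)) ≤ 2 * C₁ / Real.log 2 * ((m₀ : ℝ) + 2) ^ e * (n : ℝ)⁻¹ := by
    rw [Real.rpow_neg (by norm_num), Real.rpow_natCast]
    rw [inv_le_iff_one_le_mul₀ (by positivity)]
    have h5 : 2 * C₁ / Real.log 2 * ((m₀ : ℝ) + 2) ^ e * (n : ℝ)⁻¹ * 2 ^ m₀ =
        C₁ * (((m₀ : ℝ) + 2) ^ e * 2 ^ (m₀ + 1)) / (n * Real.log 2) := by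
      field_simp
      ring
    rw [h5, one_le_div (by positivity)]
    exact hup
  have h5 : (2 : ℝ) ^ (-(r * m₀)) ≤
      (2 * C₁ / Real.log 2) ^ r * ((m₀ : ℝ) + 2) ^ ((e : ℝ) * r) * (n : ℝ) ^ (-r) := by
    have h6 := Real.rpow_le_rpow (by positivity) h4 hr.le
    rw [← Real.rpow_mul (by norm_num), Real.mul_rpow (by positivity) (by positivity),
      Real.mul_rpow (by positivity) (by positivity), ← Real.rpow_natCast (_ + 2) e,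
      ← Real.rpow_mul (by positivity), Real.inv_rpow hnpos.le, ← Real.rpow_neg hnpos.le] at h6
    rwa [show -(r * (m₀ : ℝ)) = -(m₀ : ℝ) * r by ring]
  have h6 : ((m₀ : ℝ) + 1) ^ a ≤ ((m₀ : ℝ) + 2) ^ a :=
    Real.rpow_le_rpow (by positivity) (by linarith) ha
  have her : 0 ≤ (e : ℝ) * r := by positivity
  calc C₂ * (((m₀ : ℝ) + 1) ^ a * (2 : ℝ) ^ (-(r * m₀)))
      ≤ C₂ * (((m₀ : ℝ) + 2) ^ a *
        ((2 * C₁ / Real.log 2) ^ r * ((m₀ : ℝ) + 2) ^ ((e : ℝ) * r) * (n : ℝ) ^ (-r))) := by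
        gcongr
    _ = C₂ * (2 * C₁ / Real.log 2) ^ r * ((m₀ : ℝ) + 2) ^ ((e : ℝ) * r + a) * (n : ℝ) ^ (-r) := by
        rw [Real.rpow_add (by positivity)]
        ring
    _ ≤ C₂ * (2 * C₁ / Real.log 2) ^ r * (4 * Real.log n) ^ ((e : ℝ) * r + a) *
          (n : ℝ) ^ (-r) := by
        gcongr
    _ = _ := by
        rw [Real.mul_rpow (by norm_num) (by linarith)]
        ring

end Pool.Agent.Helper7.SB
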