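import Pool.Agent.Helper60.SB.Defs2

/-!
Module Z: choice of the number of levels for a given `n` and the asymptotics of the lower bounds.
-/

open Finset MeasureTheory
open scoped ENNReal Real

namespace Pool.Agent.Helper7.SB

open Pool.Agent.Helper60.SB

private noncomputable def ff (e : ℕ) (c : ℝ) (m : ℕ) : ℝ :=
  c * ((m : ℝ) ^ (e + 1) * 2 ^ ((e + 2) * m))

private theorem ff_mono (e : ℕ) (c : ℝ) (hc : 0 < c) : Monotone (ff e c) := by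
  intro a b hab
  unfold ff
  have h1 : (a : ℝ) ≤ b := by exact_mod_cast hab
  have h2 : (a : ℝ) ^ (e + 1) ≤ (b : ℝ) ^ (e + 1) := pow_le_pow_left₀ (by positivity) h1 _
  have h3 : (2 : ℝ) ^ ((e + 2) * a) ≤ 2 ^ ((e + 2) * b) :=
    pow_le_pow_right₀ (by norm_num) (Nat.mul_le_mul_left _ hab)
  gcongr

/-- choice of the number of levels -/
private theorem exists_level (e : ℕ) (c : ℝ) (hc : 0 < c) (m₀ : ℕ) :
    ∃ n₀ : ℕ, ∀ n : ℕ, n₀ ≤ n → ∃ k : ℕ, m₀ ≤ k ∧ 1 ≤ k ∧ (n : ℝ) ≤ ff e c (k + 1) ∧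
      ff e c k < n := by
  refine ⟨⌊ff e c (max m₀ 1)⌋₊ + 1, fun n hn => ?_⟩
  have hn' : ff e c (max m₀ 1) < n := by
    have := Nat.lt_floor_add_one (ff e c (max m₀ 1))
    have h2 : ((⌊ff e c (max m₀ 1)⌋₊ + 1 : ℕ) : ℝ) ≤ n := by exact_mod_cast hn
    push_cast at h2
    linarith
  have hex : ∃ m : ℕ, (n : ℝ) ≤ ff e c m := by
    obtain ⟨m, hm⟩ := exists_nat_ge ((n : ℝ) / c + 1)
    refine ⟨m, ?_⟩
    have hnc : 0 ≤ (n : ℝ) / c := by positivity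
    have hm1 : (1 : ℝ) ≤ m := by linarith
    have h1 : (n : ℝ) ≤ c * m := by
      have : (n : ℝ) / c ≤ m := by linarith
      rw [div_le_iff₀ hc] at this
      linarith
    have h2 : (m : ℝ) ≤ (m : ℝ) ^ (e + 1) := le_self_pow₀ hm1 (by omega)
    have h3 : (1 : ℝ) ≤ 2 ^ ((e + 2) * m) := one_le_pow₀ (by norm_num)
    have h4 : (m : ℝ) ≤ (m : ℝ) ^ (e + 1) * 2 ^ ((e + 2) * m) := by
      calc (m : ℝ) ≤ (m : ℝ) ^ (e + 1) * 1 := by linarith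
        _ ≤ (m : ℝ) ^ (e + 1) * 2 ^ ((e + 2) * m) := by gcongr
    unfold ff
    nlinarith
  classical
  have hlt : max m₀ 1 < Nat.find hex := by
    by_contra hle
    push Not at hle
    have h1 := Nat.find_spec hex
    have h2 := ff_mono e c hc hle
    linarith
  obtain ⟨k, hk⟩ : ∃ k, Nat.find hex = k + 1 := ⟨Nat.find hex - 1, by omega⟩
  refine ⟨k, by omega, by omega, ?_, ?_⟩
  · rw [← hk]
    exact Nat.find_spec hex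
  · have := Nat.find_min hex (m := k) (by omega)
    push Not at this
    exact this

/-- the number of levels is at least a constant times the logarithm -/
private theorem log_le (e : ℕ) (c : ℝ) (hc : 0 < c) (n k : ℕ) (hn : 1 ≤ n) (hk : 1 ≤ k)
    (h : (n : ℝ) ≤ ff e c (k + 1)) :
    Real.log n ≤ (|Real.log c| + 2 * (2 * e + 3)) * k := by
  have hk' : (1 : ℝ) ≤ k := by exact_mod_cast hk
  have h1 : ((k + 1 : ℕ) : ℝ) ≤ 2 ^ (k + 1) := by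
    exact_mod_cast (Nat.lt_two_pow_self (n := k + 1)).le
  have h2 : (((k + 1 : ℕ) : ℝ)) ^ (e + 1) ≤ (2 ^ (k + 1)) ^ (e + 1) :=
    pow_le_pow_left₀ (by positivity) h1 _
  have h3 : (n : ℝ) ≤ c * 2 ^ ((2 * e + 3) * (k + 1)) := by
    calc (n : ℝ) ≤ ff e c (k + 1) := h
      _ = c * ((((k + 1 : ℕ) : ℝ)) ^ (e + 1) * 2 ^ ((e + 2) * (k + 1))) := rfl
      _ ≤ c * ((2 ^ (k + 1)) ^ (e + 1) * 2 ^ ((e + 2) * (k + 1))) := by gcongr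
      _ = c * 2 ^ ((2 * e + 3) * (k + 1)) := by
        rw [← pow_mul, ← pow_add]
        congr 2
        ring
  have hnpos : (0 : ℝ) < n := by exact_mod_cast hn
  have h4 : Real.log n ≤ Real.log c + ((2 * e + 3) * (k + 1) : ℕ) * Real.log 2 := by
    have := Real.log_le_log hnpos h3
    rwa [Real.log_mul hc.ne' (by positivity), Real.log_pow] at this
  have h5 : Real.log 2 ≤ 1 := by
    have := Real.log_two_lt_d9
    linarith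
  have h6 : (((2 * e + 3) * (k + 1) : ℕ) : ℝ) * Real.log 2 ≤ (2 * e + 3) * (k + 1) := by
    have h0 : (0 : ℝ) ≤ ((2 * e + 3) * (k + 1) : ℕ) := by positivity
    calc (((2 * e + 3) * (k + 1) : ℕ) : ℝ) * Real.log 2
        ≤ (((2 * e + 3) * (k + 1) : ℕ) : ℝ) * 1 := by gcongr
      _ = (2 * e + 3) * (k + 1) := by push_cast; ring
  have h7 : Real.log c ≤ |Real.log c| * k := by
    calc Real.log c ≤ |Real.log c| := le_abs_self _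
      _ = |Real.log c| * 1 := by ring
      _ ≤ |Real.log c| * k := by gcongr
  have he : (0 : ℝ) ≤ e := by positivity
  nlinarith

/-- asymptotics -/
theorem asym (e : ℕ) (c r s : ℝ) (hc : 0 < c) (hr : 0 < r) (hs : 0 ≤ s) (m₀ : ℕ) :
    ∃ c' > 0, ∃ n₀ : ℕ, ∀ n ≥ n₀, ∃ m : ℕ, m₀ ≤ m ∧ 0 < m ∧
      (n : ℝ) ≤ c * ((m ^ (e + 1) * 2 ^ ((e + 2) * m) : ℕ) : ℝ) ∧
      c' * (n : ℝ) ^ (-r) * Real.log n ^ (((e : ℝ) + 1) * r + s) ≤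
        (2 : ℝ) ^ (-(r * (((e : ℝ) + 2) * m))) * (m : ℝ) ^ s := by
  obtain ⟨n₀, hn₀⟩ := exists_level e c hc m₀
  set D : ℝ := |Real.log c| + 2 * (2 * e + 3) with hD
  have hDpos : 0 < D := by positivity
  refine ⟨((2 : ℝ) ^ (e + 2) / c) ^ (-r) * D ^ (-(((e : ℝ) + 1) * r + s)), by positivity,
    max n₀ 1, fun n hn => ?_⟩
  obtain ⟨k, hk₀, hk1, hle, hlt⟩ := hn₀ n (le_trans (le_max_left _ _) hn)
  have hn1 : 1 ≤ n := le_trans (le_max_right _ _) hn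
  have hnpos : (0 : ℝ) < n := by exact_mod_cast hn1
  have hkpos : (0 : ℝ) < k := by exact_mod_cast hk1
  refine ⟨k + 1, by omega, by omega, ?_, ?_⟩
  · have : ((((k + 1) ^ (e + 1) * 2 ^ ((e + 2) * (k + 1)) : ℕ)) : ℝ) =
        (((k + 1 : ℕ) : ℝ)) ^ (e + 1) * 2 ^ ((e + 2) * (k + 1)) := by push_cast; ring
    rw [this]
    exact hle
  · have hlog := log_le e c hc n k hn1 hk1 hle
    have hlog0 : 0 ≤ Real.log n := Real.log_nonneg (by exact_mod_cast hn1)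
    have hkD : Real.log n / D ≤ k := by
      rw [div_le_iff₀ hDpos]
      linarith
    -- the power of two
    have h1 : (2 : ℝ) ^ ((e + 2) * (k + 1)) ≤ (2 : ℝ) ^ (e + 2) / c * n * ((k : ℝ) ^ (e + 1))⁻¹ := by
      have h2 : c * ((k : ℝ) ^ (e + 1) * 2 ^ ((e + 2) * k)) ≤ n := hlt.le
      have h3 : (2 : ℝ) ^ ((e + 2) * (k + 1)) = 2 ^ (e + 2) * 2 ^ ((e + 2) * k) := by
        rw [← pow_add]; congr 1; ring
      rw [h3]
      have h4 : (2 : ℝ) ^ ((e + 2) * k) ≤ n / c * ((k : ℝ) ^ (e + 1))⁻¹ := by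
        rw [← div_eq_mul_inv, div_div, le_div_iff₀ (by positivity)]
        linarith
      calc (2 : ℝ) ^ (e + 2) * 2 ^ ((e + 2) * k)
          ≤ 2 ^ (e + 2) * (n / c * ((k : ℝ) ^ (e + 1))⁻¹) := by gcongr
        _ = (2 : ℝ) ^ (e + 2) / c * n * ((k : ℝ) ^ (e + 1))⁻¹ := by ring
    have h5 : (2 : ℝ) ^ (-(r * (((e : ℝ) + 2) * ((k + 1 : ℕ) : ℝ)))) =
        ((2 : ℝ) ^ ((e + 2) * (k + 1))) ^ (-r) := by
      rw [← Real.rpow_natCast, ← Real.rpow_mul (by norm_num)]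
      congr 1
      push_cast
      ring
    have h6 : ((2 : ℝ) ^ (e + 2) / c * n * ((k : ℝ) ^ (e + 1))⁻¹) ^ (-r) ≤
        ((2 : ℝ) ^ ((e + 2) * (k + 1))) ^ (-r) :=
      Real.rpow_le_rpow_of_nonpos (by positivity) h1 (by linarith)
    have h7 : ((2 : ℝ) ^ (e + 2) / c * n * ((k : ℝ) ^ (e + 1))⁻¹) ^ (-r) =
        ((2 : ℝ) ^ (e + 2) / c) ^ (-r) * (n : ℝ) ^ (-r) * (k : ℝ) ^ (((e : ℝ) + 1) * r) := by
      have h0 : ((k : ℝ) ^ (e + 1)) ^ r = (k : ℝ) ^ (((e : ℝ) + 1) * r) := by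
        rw [← Real.rpow_natCast (k : ℝ) (e + 1), ← Real.rpow_mul hkpos.le]
        push_cast
        rfl
      rw [Real.mul_rpow (by positivity) (by positivity), Real.mul_rpow (by positivity) hnpos.le,
        Real.inv_rpow (by positivity), ← Real.rpow_neg (by positivity), neg_neg, h0]
    have h8 : (k : ℝ) ^ s ≤ ((k + 1 : ℕ) : ℝ) ^ s :=
      Real.rpow_le_rpow hkpos.le (by push_cast; linarith) hs
    have h9 : (Real.log n / D) ^ (((e : ℝ) + 1) * r + s) ≤ (k : ℝ) ^ (((e : ℝ) + 1) * r + s) :=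
      Real.rpow_le_rpow (by positivity) hkD (by positivity)
    have h10 : (Real.log n / D) ^ (((e : ℝ) + 1) * r + s) =
        D ^ (-(((e : ℝ) + 1) * r + s)) * Real.log n ^ (((e : ℝ) + 1) * r + s) := by
      rw [Real.div_rpow hlog0 hDpos.le, Real.rpow_neg hDpos.le, div_eq_inv_mul]
    rw [h5]
    calc ((2 : ℝ) ^ (e + 2) / c) ^ (-r) * D ^ (-(((e : ℝ) + 1) * r + s)) * (n : ℝ) ^ (-r) *
          Real.log n ^ (((e : ℝ) + 1) * r + s)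
        = ((2 : ℝ) ^ (e + 2) / c) ^ (-r) * (n : ℝ) ^ (-r) *
          (D ^ (-(((e : ℝ) + 1) * r + s)) * Real.log n ^ (((e : ℝ) + 1) * r + s)) := by ring
      _ ≤ ((2 : ℝ) ^ (e + 2) / c) ^ (-r) * (n : ℝ) ^ (-r) *
          (k : ℝ) ^ (((e : ℝ) + 1) * r + s) := by
          rw [← h10]; gcongr
      _ = (((2 : ℝ) ^ (e + 2) / c) ^ (-r) * (n : ℝ) ^ (-r) * (k : ℝ) ^ (((e : ℝ) + 1) * r)) *
          (k : ℝ) ^ s := by
          rw [Real.rpow_add hkpos]; ring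
      _ ≤ ((2 : ℝ) ^ ((e + 2) * (k + 1))) ^ (-r) * ((k + 1 : ℕ) : ℝ) ^ s := by
          rw [← h7]
          gcongr

section

variable
  (hblock : ∃ u : ℝ → ℝ, ContDiff ℝ (⊤ : ℕ∞) u ∧ (∀ t, |u t| ≤ 1) ∧
    (∀ t, u (1 - t) = -u t) ∧ (∀ t, 1 / 2 ≤ t → 0 ≤ u t) ∧
    (∀ t, 7 / 12 ≤ t → t ≤ 2 / 3 → 1 / 3 ≤ u t) ∧
    (∀ t, (t ≤ 1 / 10 ∨ 9 / 10 ≤ t) → u t = 0) ∧ ∫ t, u t = 0)
  (hcard : ∀ e m : ℕ, 0 < m → Fintype.card (Box e m) = m ^ (e + 1) * 2 ^ ((e + 2) * m))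
  (hent : ∀ (e : ℕ) (u : ℝ → ℝ), ContDiff ℝ (⊤ : ℕ∞) u → (∀ t, |u t| ≤ 1) →
    (∀ t, u (1 - t) = -u t) → (∀ t, 1 / 2 ≤ t → 0 ≤ u t) →
    (∀ t, 7 / 12 ≤ t → t ≤ 2 / 3 → 1 / 3 ≤ u t) →
    (∀ t, (t ≤ 0 ∨ 1 ≤ t) → u t = 0) → ∀ (𝕜 : Type) [RCLike 𝕜],
    ∃ c > 0, ∃ m₀ : ℕ, ∀ m ≥ m₀, ∀ (F : Set ((Fin (e + 2) → ℝ) → 𝕜)) (l : ℝ), 0 < l →
      (open scoped Classical in (1 / 2 : ℝ) * 2 ^ Fintype.card (Box e m) ≤
        ((univ.filter fun β : Box e m → Bool =>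
          (fun x => ((l * ∑ R, sg (β R) * bxp u R x : ℝ) : 𝕜)) ∈ F).card : ℝ)) →
      ∀ n : ℕ, (n : ℝ) ≤ c * Fintype.card (Box e m) →
        ENNReal.ofReal (c * l * (m : ℝ) ^ (((e : ℝ) + 2) / 2)) ≤ entropyNumber n F)

include hblock hcard hent

theorem lower_W_of
    (hhalf : ∀ (e : ℕ) (u : ℝ → ℝ), ContDiff ℝ (⊤ : ℕ∞) u →
      (∀ t, (t ≤ 1 / 10 ∨ 9 / 10 ≤ t) → u t = 0) → ∫ t, u t = 0 → ∀ (r : ℝ), 0 < r →
      ∀ (p : ℝ≥0∞), p ≠ ⊤ → ∀ (𝕜 : Type) [RCLike 𝕜],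
      ∃ K > 0, ∀ m : ℕ, 0 < m →
        (open scoped Classical in (1 / 2 : ℝ) * 2 ^ Fintype.card (Box e m) ≤
        ((univ.filter fun β : Box e m → Bool =>
          (fun x => ((K * (2 : ℝ) ^ (-(r * ((e + 2) * m))) * (m : ℝ) ^ (-(((e : ℝ) + 1) / 2)) *
              ∑ R, sg (β R) * bxp u R x : ℝ) : 𝕜)) ∈ Wclass (e + 2) 𝕜 r p).card : ℝ)))
    (d : ℕ) (hd : 2 ≤ d) (𝕜 : Type) [RCLike 𝕜] (p : ℝ≥0∞) (hp : p ≠ ⊤)
    (r : ℝ) (hr : 0 < r) :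
    ∃ c > 0, ∃ n₀ : ℕ, ∀ n ≥ n₀,
      ENNReal.ofReal (c * (n : ℝ) ^ (-r) * Real.log n ^ (((d : ℝ) - 1) * r + 1 / 2)) ≤
        entropyNumber n (Wclass d 𝕜 r p) := by
  obtain ⟨e, rfl⟩ : ∃ e, d = e + 2 := ⟨d - 2, by omega⟩
  obtain ⟨u, hu, hu1, hodd, hpos, hpl, hsupp, hint⟩ := hblock
  obtain ⟨c, hc, m₀, hm₀⟩ := hent e u hu hu1 hodd hpos hpl
    (fun t ht => hsupp t (by rcases ht with h | h <;> [left; right] <;> linarith)) 𝕜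
  obtain ⟨K, hK, hKm⟩ := hhalf e u hu hsupp hint r hr p hp 𝕜
  obtain ⟨c', hc', n₀, hn₀⟩ := asym e c r (1 / 2) hc hr (by norm_num) m₀
  refine ⟨c * K * c', by positivity, n₀, fun n hn => ?_⟩
  obtain ⟨m, hm, hm0, hnm, hmain⟩ := hn₀ n hn
  have hmpos : (0 : ℝ) < m := by exact_mod_cast hm0
  have h1 := hm₀ m hm (Wclass (e + 2) 𝕜 r p)
    (K * (2 : ℝ) ^ (-(r * ((e + 2) * m))) * (m : ℝ) ^ (-(((e : ℝ) + 1) / 2))) (by positivity)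
    (hKm m hm0) n (by rw [hcard e m hm0]; exact hnm)
  refine le_trans (ENNReal.ofReal_le_ofReal ?_) h1
  have h2 : (m : ℝ) ^ (-(((e : ℝ) + 1) / 2)) * (m : ℝ) ^ (((e : ℝ) + 2) / 2) =
      (m : ℝ) ^ ((1 : ℝ) / 2) := by
    rw [← Real.rpow_add hmpos]
    congr 1
    ring
  have h3 : (((e + 2 : ℕ) : ℝ) - 1) * r + 1 / 2 = ((e : ℝ) + 1) * r + 1 / 2 := by
    push_cast; ring
  rw [h3]
  calc c * K * c' * (n : ℝ) ^ (-r) * Real.log n ^ (((e : ℝ) + 1) * r + 1 / 2)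
      = c * K * (c' * (n : ℝ) ^ (-r) * Real.log n ^ (((e : ℝ) + 1) * r + 1 / 2)) := by ring
    _ ≤ c * K * ((2 : ℝ) ^ (-(r * (((e : ℝ) + 2) * m))) * (m : ℝ) ^ ((1 : ℝ) / 2)) := by gcongr
    _ = c * (K * (2 : ℝ) ^ (-(r * ((e + 2) * m))) * (m : ℝ) ^ (-(((e : ℝ) + 1) / 2))) *
        (m : ℝ) ^ (((e : ℝ) + 2) / 2) := by
      rw [← h2]; ring

theorem lower_H_of
    (hmemH : ∀ (e : ℕ) (u : ℝ → ℝ), ContDiff ℝ (⊤ : ℕ∞) u →
      (∀ t, (t ≤ 1 / 10 ∨ 9 / 10 ≤ t) → u t = 0) → ∀ (r : ℝ), 0 < r →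
      ∀ (p : ℝ≥0∞) (𝕜 : Type) [RCLike 𝕜],
      ∃ K > 0, ∀ m : ℕ, 0 < m → ∀ β : Box e m → Bool,
        (fun x => ((K * (2 : ℝ) ^ (-(r * ((e + 2) * m))) * ∑ R, sg (β R) * bxp u R x : ℝ) : 𝕜)) ∈
          Hclass (e + 2) 𝕜 r p)
    (d : ℕ) (hd : 2 ≤ d) (𝕜 : Type) [RCLike 𝕜] (p : ℝ≥0∞)
    (r : ℝ) (hr : 0 < r) :
    ∃ c > 0, ∃ n₀ : ℕ, ∀ n ≥ n₀,
      ENNReal.ofReal (c * (n : ℝ) ^ (-r) * Real.log n ^ (((d : ℝ) - 1) * r + (d : ℝ) / 2)) ≤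
        entropyNumber n (Hclass d 𝕜 r p) := by
  obtain ⟨e, rfl⟩ : ∃ e, d = e + 2 := ⟨d - 2, by omega⟩
  obtain ⟨u, hu, hu1, hodd, hpos, hpl, hsupp, hint⟩ := hblock
  obtain ⟨c, hc, m₀, hm₀⟩ := hent e u hu hu1 hodd hpos hpl
    (fun t ht => hsupp t (by rcases ht with h | h <;> [left; right] <;> linarith)) 𝕜
  obtain ⟨K, hK, hKm⟩ := hmemH e u hu hsupp r hr p 𝕜
  obtain ⟨c', hc', n₀, hn₀⟩ := asym e c r (((e : ℝ) + 2) / 2) hc hr (by positivity) m₀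
  refine ⟨c * K * c', by positivity, n₀, fun n hn => ?_⟩
  obtain ⟨m, hm, hm0, hnm, hmain⟩ := hn₀ n hn
  have hmpos : (0 : ℝ) < m := by exact_mod_cast hm0
  have h1 := hm₀ m hm (Hclass (e + 2) 𝕜 r p)
    (K * (2 : ℝ) ^ (-(r * ((e + 2) * m)))) (by positivity)
    (by
      classical
      rw [Finset.filter_true_of_mem (fun β _ => hKm m hm0 β), Finset.card_univ, Fintype.card_fun,
        Fintype.card_bool]
      push_cast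
      have : (0 : ℝ) < 2 ^ Fintype.card (Box e m) := by positivity
      linarith) n (by rw [hcard e m hm0]; exact hnm)
  refine le_trans (ENNReal.ofReal_le_ofReal ?_) h1
  have h3 : (((e + 2 : ℕ) : ℝ) - 1) * r + ((e + 2 : ℕ) : ℝ) / 2 =
      ((e : ℝ) + 1) * r + ((e : ℝ) + 2) / 2 := by
    push_cast; ring
  rw [h3]
  calc c * K * c' * (n : ℝ) ^ (-r) * Real.log n ^ (((e : ℝ) + 1) * r + ((e : ℝ) + 2) / 2)
      = c * K * (c' * (n : ℝ) ^ (-r) *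
        Real.log n ^ (((e : ℝ) + 1) * r + ((e : ℝ) + 2) / 2)) := by ring
    _ ≤ c * K * ((2 : ℝ) ^ (-(r * (((e : ℝ) + 2) * m))) *
        (m : ℝ) ^ (((e : ℝ) + 2) / 2)) := by gcongr
    _ = c * (K * (2 : ℝ) ^ (-(r * ((e + 2) * m)))) * (m : ℝ) ^ (((e : ℝ) + 2) / 2) := by
      ring

end

end Pool.Agent.Helper7.SB
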