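import Pool.Agent.Helper60.SB.Defs5

/-!
Module P6: dyadic discretisation of the kernel integral.
-/

open Finset MeasureTheory
open scoped ENNReal Real

namespace Pool.Agent.Helper7.SB.P6

open Pool.Agent.Helper60.SB

/-! ### the dyadic size of `sin (z/2)` -/

open scoped Classical in
/-- the largest `q ≤ M` with `|sin (z/2)| ≤ 2^-q` -/
noncomputable def qd (M : ℕ) (z : ℝ) : ℕ :=
  Nat.findGreatest (fun q => |Real.sin (z / 2)| ≤ (1 / 2 : ℝ) ^ q) M

lemma qd_le (M : ℕ) (z : ℝ) : qd M z ≤ M := by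
  classical
  exact Nat.findGreatest_le M

lemma qd_spec (M : ℕ) (z : ℝ) : |Real.sin (z / 2)| ≤ (1 / 2 : ℝ) ^ qd M z := by
  classical
  unfold qd
  exact Nat.findGreatest_spec (P := fun q => |Real.sin (z / 2)| ≤ (1 / 2 : ℝ) ^ q) (Nat.zero_le M)
    (by simpa using Real.abs_sin_le_one (z / 2))

lemma qd_lt {M : ℕ} {z : ℝ} {s : ℕ} (h1 : qd M z < s) (h2 : s ≤ M) :
    (1 / 2 : ℝ) ^ s < |Real.sin (z / 2)| := by
  classical
  unfold qd at h1
  have := Nat.findGreatest_is_greatest h1 h2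
  exact not_le.1 this

lemma ew_pos (s : ℕ) (z : ℝ) : 0 < ew s z := by
  unfold ew; positivity

lemma ew_le_qd {M s : ℕ} (hs : s ≤ M) (z : ℝ) : ew s z ≤ 2 * (1 / 2 : ℝ) ^ (s - qd M z) := by
  unfold ew
  by_cases h : s ≤ qd M z
  · rw [Nat.sub_eq_zero_of_le h, pow_zero]
    have h0 : (0 : ℝ) ≤ 2 ^ s * |Real.sin (z / 2)| := by positivity
    rw [div_le_iff₀ (by positivity)]
    linarith
  · push Not at h
    have h1 := qd_lt (M := M) (z := z) (s := qd M z + 1) (Nat.lt_succ_self _) (by omega)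
    have h2 : (2 : ℝ) ^ s * (1 / 2 : ℝ) ^ (qd M z + 1) ≤ 2 ^ s * |Real.sin (z / 2)| :=
      mul_le_mul_of_nonneg_left h1.le (by positivity)
    rw [div_le_iff₀ (by positivity)]
    have h3 : 2 * (1 / 2 : ℝ) ^ (s - qd M z) * (2 ^ s * (1 / 2 : ℝ) ^ (qd M z + 1)) = 1 := by
      obtain ⟨k, hk⟩ := Nat.exists_eq_add_of_lt h
      have e1 : s - qd M z = k + 1 := by omega
      rw [e1, hk]
      have e2 : (2 : ℝ) ^ (qd M z + k + 1) = 2 ^ (qd M z) * 2 ^ k * 2 := by ring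
      rw [e2]
      have e3 : (1 / 2 : ℝ) ^ (k + 1) * 2 ^ k * 2 = 1 := by
        rw [pow_succ, one_div, inv_pow]
        field_simp
      have e4 : (1 / 2 : ℝ) ^ (qd M z + 1) * 2 ^ (qd M z) * 2 = 1 := by
        rw [pow_succ, one_div, inv_pow]
        field_simp
      calc 2 * (1 / 2 : ℝ) ^ (k + 1) * (2 ^ qd M z * 2 ^ k * 2 * (1 / 2) ^ (qd M z + 1))
          = ((1 / 2 : ℝ) ^ (k + 1) * 2 ^ k * 2) * ((1 / 2 : ℝ) ^ (qd M z + 1) * 2 ^ (qd M z) * 2) := by
            ring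
        _ = 1 := by rw [e3, e4, one_mul]
    have h4 : 0 ≤ 2 * (1 / 2 : ℝ) ^ (s - qd M z) := by positivity
    nlinarith [mul_le_mul_of_nonneg_left h2 h4]

/-! ### blocks of exponentials -/

/-- the univariate block sum -/
noncomputable def bs (l s : ℕ) (z : ℝ) : ℂ :=
  ∑ k ∈ (Finset.Icc (-2 ^ l : ℤ) (2 ^ l)).filter (fun k : ℤ => k.natAbs.size = s),
    Complex.exp (Complex.I * ((k : ℂ) * (z : ℂ)))

lemma geo_le (a b : ℕ) (hab : a ≤ b) (w : ℂ) (hw : ‖w‖ = 1) :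
    ‖∑ n ∈ Finset.Ico a b, w ^ n‖ * ‖w - 1‖ ≤ 2 := by
  rw [← norm_mul, geom_sum_Ico_mul w hab]
  calc ‖w ^ b - w ^ a‖ ≤ ‖w ^ b‖ + ‖w ^ a‖ := norm_sub_le _ _
    _ = 2 := by rw [norm_pow, norm_pow, hw, one_pow, one_pow]; norm_num

lemma geo_card (a b : ℕ) (w : ℂ) (hw : ‖w‖ = 1) :
    ‖∑ n ∈ Finset.Ico a b, w ^ n‖ ≤ (b - a : ℕ) := by
  refine (norm_sum_le _ _).trans ?_
  rw [Finset.sum_congr rfl fun n _ => by rw [norm_pow, hw, one_pow]]
  simp

lemma norm_exp_sub (z : ℝ) : ‖Complex.exp (Complex.I * (z : ℂ)) - 1‖ = 2 * |Real.sin (z / 2)| := by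
  rw [Complex.norm_exp_I_mul_ofReal_sub_one, norm_mul, Real.norm_eq_abs, Real.norm_eq_abs]
  norm_num

lemma geo_exp {M : ℕ} (s : ℕ) (hs : s + 1 ≤ M) (z y : ℝ) (hy : |Real.sin (y / 2)| = |Real.sin (z / 2)|) :
    ‖∑ n ∈ Finset.Ico (2 ^ s) (2 ^ (s + 1)), (Complex.exp (Complex.I * (y : ℂ))) ^ n‖ ≤
      2 * 2 ^ (min (s + 1) (qd M z)) := by
  have hw : ‖Complex.exp (Complex.I * (y : ℂ))‖ = 1 := by
    rw [mul_comm, Complex.norm_exp_ofReal_mul_I]
  by_cases h : s + 1 ≤ qd M z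
  · rw [min_eq_left h]
    refine (geo_card _ _ _ hw).trans ?_
    have : 2 ^ (s + 1) - 2 ^ s = 2 ^ s := by rw [pow_succ]; omega
    rw [this]
    push_cast
    rw [pow_succ]
    have : (0 : ℝ) < 2 ^ s := by positivity
    linarith
  · push Not at h
    rw [min_eq_right h.le]
    have h1 := qd_lt (M := M) (z := z) (s := qd M z + 1) (Nat.lt_succ_self _) (by omega)
    have h2 := geo_le (2 ^ s) (2 ^ (s + 1)) (Nat.pow_le_pow_right (by norm_num) (by omega)) _ hw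
    rw [norm_exp_sub, hy] at h2
    set X := ‖∑ n ∈ Finset.Ico (2 ^ s) (2 ^ (s + 1)), (Complex.exp (Complex.I * (y : ℂ))) ^ n‖
    have hX : 0 ≤ X := norm_nonneg _
    have h3 : X * (1 / 2 : ℝ) ^ (qd M z) ≤ 2 := by
      rw [pow_succ] at h1
      nlinarith
    calc X = X * (1 / 2 : ℝ) ^ (qd M z) * 2 ^ (qd M z) := by
          rw [mul_assoc, ← mul_pow]; norm_num
      _ ≤ 2 * 2 ^ (qd M z) := mul_le_mul_of_nonneg_right h3 (by positivity)

lemma size_succ_iff (n s : ℕ) : n.size = s + 1 ↔ 2 ^ s ≤ n ∧ n < 2 ^ (s + 1) := by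
  constructor
  · intro h
    refine ⟨Nat.lt_size.1 (by omega), Nat.size_le.1 (by omega)⟩
  · rintro ⟨h1, h2⟩
    have := Nat.lt_size.2 h1
    have := Nat.size_le.2 h2
    omega

lemma bs_le {M l s : ℕ} (hs : s ≤ M) (hl : s ≤ l) (z : ℝ) :
    ‖bs l s z‖ ≤ 4 * 2 ^ (min s (qd M z)) := by
  unfold bs
  rcases s with _ | s
  · have : (Finset.Icc (-2 ^ l : ℤ) (2 ^ l)).filter (fun k : ℤ => k.natAbs.size = 0) = {0} := by
      ext k
      simp only [Finset.mem_filter, Finset.mem_Icc, Finset.mem_singleton, Nat.size_eq_zero,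
        Int.natAbs_eq_zero]
      constructor
      · exact fun h => h.2
      · rintro rfl
        have : (0 : ℤ) < 2 ^ l := by positivity
        exact ⟨⟨by omega, by omega⟩, rfl⟩
    rw [this]
    simp
  · have hset : (Finset.Icc (-2 ^ l : ℤ) (2 ^ l)).filter (fun k : ℤ => k.natAbs.size = s + 1) =
        (Finset.Ico (2 ^ s) (2 ^ (s + 1))).image (fun n : ℕ => (n : ℤ)) ∪
        (Finset.Ico (2 ^ s) (2 ^ (s + 1))).image (fun n : ℕ => -(n : ℤ)) := by
      ext k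
      have hpl : 2 ^ (s + 1) ≤ 2 ^ l := Nat.pow_le_pow_right (by norm_num) hl
      have hpl' : ((2 ^ l : ℕ) : ℤ) = (2 : ℤ) ^ l := by push_cast; rfl
      simp only [Finset.mem_filter, Finset.mem_Icc, Finset.mem_union, Finset.mem_image,
        Finset.mem_Ico, size_succ_iff]
      rw [← hpl']
      constructor
      · rintro ⟨_, h1, h2⟩
        rcases le_total 0 k with hk | hk
        · left
          exact ⟨k.natAbs, ⟨h1, h2⟩, by omega⟩
        · right
          exact ⟨k.natAbs, ⟨h1, h2⟩, by omega⟩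
      · rintro (⟨n, ⟨h1, h2⟩, rfl⟩ | ⟨n, ⟨h1, h2⟩, rfl⟩)
        · refine ⟨⟨?_, ?_⟩, ?_, ?_⟩ <;> omega
        · refine ⟨⟨?_, ?_⟩, ?_, ?_⟩ <;> omega
    have hdisj : Disjoint ((Finset.Ico (2 ^ s) (2 ^ (s + 1))).image (fun n : ℕ => (n : ℤ)))
        ((Finset.Ico (2 ^ s) (2 ^ (s + 1))).image (fun n : ℕ => -(n : ℤ))) := by
      rw [Finset.disjoint_left]
      intro k hk1 hk2
      simp only [Finset.mem_image, Finset.mem_Ico] at hk1 hk2
      obtain ⟨n, ⟨h1, _⟩, rfl⟩ := hk1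
      obtain ⟨n', ⟨h1', _⟩, h⟩ := hk2
      have : 0 < 2 ^ s := by positivity
      omega
    rw [hset, Finset.sum_union hdisj, Finset.sum_image (by intro a _ b _ h; simpa using h),
      Finset.sum_image (by intro a _ b _ h; simpa using h)]
    have e1 : ∀ n : ℕ, n ∈ Finset.Ico (2 ^ s) (2 ^ (s + 1)) →
        Complex.exp (Complex.I * (((n : ℤ) : ℂ) * (z : ℂ))) =
          (Complex.exp (Complex.I * (z : ℂ))) ^ n := by
      intro n _
      rw [← Complex.exp_nat_mul]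
      congr 1
      push_cast; ring
    have e2 : ∀ n : ℕ, n ∈ Finset.Ico (2 ^ s) (2 ^ (s + 1)) →
        Complex.exp (Complex.I * (((-(n : ℤ) : ℤ) : ℂ) * (z : ℂ))) =
          (Complex.exp (Complex.I * ((-z : ℝ) : ℂ))) ^ n := by
      intro n _
      rw [← Complex.exp_nat_mul]
      congr 1
      push_cast; ring
    rw [Finset.sum_congr rfl e1, Finset.sum_congr rfl e2]
    refine (norm_add_le _ _).trans ?_
    have h1 := geo_exp s hs z z rfl
    have h2 := geo_exp s hs z (-z) (by rw [neg_div, Real.sin_neg, abs_neg])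
    linarith

/-! ### sums over the hyperbolic layers -/

lemma ex_prod {d : ℕ} (k : Fin d → ℤ) (z : Fin d → ℝ) :
    ex k z = ∏ j, Complex.exp (Complex.I * ((k j : ℂ) * (z j : ℂ))) := by
  unfold ex
  rw [← Complex.exp_sum, Finset.mul_sum]

lemma sum_Qm (d l : ℕ) (z : Fin d → ℝ) :
    ∑ k ∈ Qm d l, ex k z = ∑ s ∈ shps d l, ∏ j, bs l (s j) (z j) := by
  have hmap : ∀ k ∈ Qm d l, lev k ∈ shps d l := by
    intro k hk
    unfold Qm at hk
    rw [Finset.mem_filter] at hk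
    unfold shps
    rw [Finset.mem_filter]
    refine ⟨?_, hk.2⟩
    rw [Fintype.mem_piFinset]
    intro j
    rw [Finset.mem_range]
    have : lev k j ≤ ∑ j, lev k j := Finset.single_le_sum (fun _ _ => Nat.zero_le _) (Finset.mem_univ j)
    omega
  rw [← Finset.sum_fiberwise_of_maps_to hmap]
  refine Finset.sum_congr rfl fun s hs => ?_
  unfold bs
  rw [Finset.prod_univ_sum]
  refine Finset.sum_congr ?_ fun k _ => ex_prod k z
  ext k
  unfold shps at hs
  rw [Finset.mem_filter] at hs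
  simp only [Qm, Finset.mem_filter, Fintype.mem_piFinset]
  constructor
  · rintro ⟨⟨h1, h2⟩, h3⟩ j
    exact ⟨h1 j, congrFun h3 j⟩
  · intro h
    have h3 : lev k = s := by
      ext j
      exact (h j).2
    refine ⟨⟨fun j => (h j).1, ?_⟩, h3⟩
    rw [h3]
    exact hs.2

lemma norm_sum_Qm {d l M : ℕ} (hl : l ≤ M) (z : Fin d → ℝ) :
    ‖∑ k ∈ Qm d l, ex k z‖ ≤ 4 ^ d * ∑ s ∈ shps d l, (2 : ℝ) ^ (∑ j, min (s j) (qd M (z j))) := by
  rw [sum_Qm, Finset.mul_sum]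
  refine (norm_sum_le _ _).trans (Finset.sum_le_sum fun s hs => ?_)
  rw [norm_prod]
  have hs' : ∀ j, s j ≤ l := by
    intro j
    unfold shps at hs
    rw [Finset.mem_filter, Fintype.mem_piFinset] at hs
    have := Finset.mem_range.1 (hs.1 j)
    omega
  calc ∏ j, ‖bs l (s j) (z j)‖ ≤ ∏ j : Fin d, (4 * 2 ^ (min (s j) (qd M (z j)))) :=
        Finset.prod_le_prod (fun _ _ => norm_nonneg _) fun j _ =>
          bs_le ((hs' j).trans hl) (hs' j) (z j)
    _ = 4 ^ d * (2 : ℝ) ^ (∑ j, min (s j) (qd M (z j))) := by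
        rw [Finset.prod_mul_distrib, Finset.prod_pow_eq_pow_sum]
        simp

lemma norm_sum_Qmid (d N J : ℕ) (z : Fin d → ℝ) :
    ‖∑ k ∈ Qmid d N J, ex k z‖ ≤ 4 ^ d * ∑ l ∈ Finset.Icc (N - J) (N + J),
      ∑ s ∈ shps d l, (2 : ℝ) ^ (∑ j, min (s j) (qd (N + J) (z j))) := by
  unfold Qmid
  rw [Finset.sum_biUnion, Finset.mul_sum]
  · refine (norm_sum_le _ _).trans (Finset.sum_le_sum fun l hl => ?_)
    exact norm_sum_Qm (Finset.mem_Icc.1 hl).2 z
  · intro a _ b _ hab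
    rw [Function.onFun, Finset.disjoint_left]
    intro k hk hk'
    unfold Qm at hk hk'
    rw [Finset.mem_filter] at hk hk'
    exact hab (hk.2.symm.trans hk'.2)

/-! ### the majorant -/

lemma shp_le (e m : ℕ) (t : Fin (e + 1) → Fin m) (j : Fin (e + 2)) :
    shp e m t j ≤ (e + 2) * m := by
  unfold shp
  refine Fin.lastCases ?_ (fun j => ?_) j
  · rw [Fin.snoc_last]
    exact Nat.sub_le _ _
  · rw [Fin.snoc_castSucc]
    have : (t j : ℕ) < m := (t j).2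
    nlinarith

lemma Smaj_le {e m M : ℕ} (hM : (e + 2) * m ≤ M) {C₀ : ℝ} (hC₀ : 0 < C₀) {U : ℝ}
    (z : Fin (e + 2) → ℝ) :
    Smaj e m C₀ U z ≤ Sdis e m (2 ^ (e + 2) * C₀) U (fun j => qd M (z j)) := by
  unfold Smaj Sdis
  rw [mul_div_assoc, mul_comm ((2 : ℝ) ^ (e + 2)), mul_assoc]
  have h0 : 0 ≤ C₀ / (U ^ 2 * (m : ℝ) ^ e) := by positivity
  refine mul_le_mul_of_nonneg_left ?_ h0
  rw [Finset.mul_sum]
  refine Finset.sum_le_sum fun t _ => ?_
  calc ∏ j, ew (shp e m t j) (z j)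
      ≤ ∏ j, (2 * (1 / 2 : ℝ) ^ (shp e m t j - qd M (z j))) :=
        Finset.prod_le_prod (fun _ _ => (ew_pos _ _).le) fun j _ =>
          ew_le_qd ((shp_le e m t j).trans hM) (z j)
    _ = _ := by
        rw [Finset.prod_mul_distrib, Finset.prod_pow_eq_pow_sum]
        simp

lemma Smaj_nonneg (e m : ℕ) {C₀ : ℝ} (hC₀ : 0 < C₀) (U : ℝ) (z : Fin (e + 2) → ℝ) :
    0 ≤ Smaj e m C₀ U z := by
  unfold Smaj
  refine mul_nonneg (by positivity) (Finset.sum_nonneg fun t _ => Finset.prod_nonneg fun j _ =>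
    (ew_pos _ _).le)

/-! ### the measure of the dyadic cells -/

/-- the set `|sin (z/2)| ≤ 2^-q` -/
def sS (q : ℕ) : Set ℝ := {z | |Real.sin (z / 2)| ≤ (1 / 2 : ℝ) ^ q}

lemma meas_sS (q : ℕ) : MeasurableSet (sS q) := by
  unfold sS
  exact measurableSet_le (by fun_prop) measurable_const

lemma sS_inter (q : ℕ) : sS q ∩ Set.Ico 0 (2 * π) ⊆
    Set.Icc 0 (π * (1 / 2) ^ q) ∪ Set.Icc (2 * π - π * (1 / 2) ^ q) (2 * π) := by
  rintro z ⟨hz, h0, h1⟩
  unfold sS at hz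
  have hz : |Real.sin (z / 2)| ≤ (1 / 2 : ℝ) ^ q := hz
  have hpi := Real.pi_pos
  rcases le_total (z / 2) (π / 2) with h | h
  · left
    have h2 := Real.mul_le_sin (x := z / 2) (by linarith) h
    have h3 : 2 / π * (z / 2) ≤ (1 / 2 : ℝ) ^ q := h2.trans ((le_abs_self _).trans hz)
    refine ⟨h0, ?_⟩
    have h4 : z = π * (2 / π * (z / 2)) := by field_simp
    rw [h4]
    exact mul_le_mul_of_nonneg_left h3 hpi.le
  · right
    have h2 := Real.mul_le_sin (x := π - z / 2) (by linarith) (by linarith)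
    rw [Real.sin_pi_sub] at h2
    have h3 : 2 / π * (π - z / 2) ≤ (1 / 2 : ℝ) ^ q := h2.trans ((le_abs_self _).trans hz)
    refine ⟨?_, h1.le⟩
    have h4 : 2 * π - z = π * (2 / π * (π - z / 2)) := by field_simp
    have h5 := mul_le_mul_of_nonneg_left h3 hpi.le
    rw [← h4] at h5
    linarith

lemma tor1_sS (q : ℕ) : tor1 (sS q) ≤ ENNReal.ofReal ((1 / 2 : ℝ) ^ q) := by
  have hpi := Real.pi_pos
  unfold tor1
  rw [Measure.smul_apply, Measure.restrict_apply (meas_sS q), smul_eq_mul]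
  have h1 : volume (sS q ∩ Set.Ico 0 (2 * π)) ≤ ENNReal.ofReal (2 * π * (1 / 2) ^ q) := by
    refine (measure_mono (sS_inter q)).trans ((measure_union_le _ _).trans ?_)
    rw [Real.volume_Icc, Real.volume_Icc, sub_zero, sub_sub_cancel,
      ← ENNReal.ofReal_add (by positivity) (by positivity)]
    refine ENNReal.ofReal_le_ofReal (le_of_eq (by ring))
  calc (ENNReal.ofReal (2 * π))⁻¹ * volume (sS q ∩ Set.Ico 0 (2 * π))
      ≤ (ENNReal.ofReal (2 * π))⁻¹ * ENNReal.ofReal (2 * π * (1 / 2) ^ q) := by gcongr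
    _ = ENNReal.ofReal ((1 / 2 : ℝ) ^ q) := by
        rw [← ENNReal.ofReal_inv_of_pos (by positivity), ← ENNReal.ofReal_mul (by positivity)]
        congr 1
        field_simp

lemma prob1 : IsProbabilityMeasure tor1 := by
  constructor
  unfold tor1
  have hpi := Real.pi_pos
  rw [Measure.smul_apply, Measure.restrict_apply MeasurableSet.univ, Set.univ_inter,
    Real.volume_Ico, sub_zero, smul_eq_mul]
  exact ENNReal.inv_mul_cancel (by simpa using hpi) ENNReal.ofReal_ne_top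

/-- the indicator of `sS q` -/
noncomputable def iS (q : ℕ) (z : ℝ) : ℝ := (sS q).indicator (fun _ => 1) z

lemma iS_nonneg (q : ℕ) (z : ℝ) : 0 ≤ iS q z := Set.indicator_nonneg (fun _ _ => zero_le_one) _

lemma iS_int (q : ℕ) : Integrable (iS q) tor1 := by
  have := prob1
  exact (integrable_const (1 : ℝ)).indicator (meas_sS q)

lemma iS_le (q : ℕ) : ∫ z, iS q z ∂tor1 ≤ (1 / 2 : ℝ) ^ q := by
  have := prob1
  unfold iS
  rw [integral_indicator (meas_sS q)]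
  simp only [integral_const, smul_eq_mul, mul_one, Measure.real, Measure.restrict_apply_univ]
  exact ENNReal.toReal_le_of_le_ofReal (by positivity) (tor1_sS q)

lemma iS_qd (M : ℕ) (z : ℝ) : iS (qd M z) z = 1 := by
  unfold iS
  exact Set.indicator_of_mem (show z ∈ sS (qd M z) from qd_spec M z) _

lemma iS_integral_nonneg (q : ℕ) : 0 ≤ ∫ z, iS q z ∂tor1 := integral_nonneg fun z => iS_nonneg q z

/-- dyadic discretisation -/
theorem int_le_sum {d : ℕ} (M : ℕ) (f : (Fin d → ℝ) → ℝ) (G : (Fin d → ℕ) → ℝ)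
    (hf : ∀ z, 0 ≤ f z) (hG : ∀ q, 0 ≤ G q) (hfG : ∀ z, f z ≤ G (fun j => qd M (z j))) :
    ∫ z, f z ∂(tor d) ≤
      ∑ q ∈ Fintype.piFinset (fun _ : Fin d => range (M + 1)), (1 / 2 : ℝ) ^ (∑ j, q j) * G q := by
  have := prob1
  have hint : ∀ q : Fin d → ℕ, Integrable (fun z : Fin d → ℝ => ∏ j, iS (q j) (z j)) (tor d) := by
    intro q
    unfold tor
    exact Integrable.fintype_prod_dep (f := fun j => iS (q j)) (fun j => iS_int (q j))
  calc ∫ z, f z ∂(tor d)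
      ≤ ∫ z, ∑ q ∈ Fintype.piFinset (fun _ : Fin d => range (M + 1)),
          G q * ∏ j, iS (q j) (z j) ∂(tor d) := by
        refine integral_mono_of_nonneg (Filter.Eventually.of_forall hf) ?_
          (Filter.Eventually.of_forall fun z => ?_)
        · exact integrable_finsetSum _ fun q _ => (hint q).const_mul _
        · have hm : (fun j => qd M (z j)) ∈ Fintype.piFinset (fun _ : Fin d => range (M + 1)) := by
            rw [Fintype.mem_piFinset]
            intro j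
            rw [Finset.mem_range]
            exact Nat.lt_succ_of_le (qd_le M (z j))
          refine (hfG z).trans ?_
          refine le_trans (le_of_eq ?_) (Finset.single_le_sum (f := fun q : Fin d → ℕ =>
            G q * ∏ j, iS (q j) (z j)) (fun q _ => mul_nonneg (hG q)
              (Finset.prod_nonneg fun j _ => iS_nonneg _ _)) hm)
          simp only [iS_qd, Finset.prod_const_one, mul_one]
    _ = ∑ q ∈ Fintype.piFinset (fun _ : Fin d => range (M + 1)),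
          G q * ∏ j, ∫ z, iS (q j) z ∂tor1 := by
        rw [integral_finsetSum _ fun q _ => (hint q).const_mul _]
        refine Finset.sum_congr rfl fun q _ => ?_
        rw [integral_const_mul]
        congr 1
        unfold tor
        exact integral_fintype_prod_eq_prod (fun j => iS (q j))
    _ ≤ _ := by
        refine Finset.sum_le_sum fun q _ => ?_
        rw [mul_comm]
        refine mul_le_mul_of_nonneg_right ?_ (hG q)
        rw [← Finset.prod_pow_eq_pow_sum]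
        exact Finset.prod_le_prod (fun j _ => iS_integral_nonneg _) fun j _ => iS_le _

/-! ### the theorem -/

/-- the sum over the levels -/
noncomputable def Ls (e N J : ℕ) (q : Fin (e + 2) → ℕ) : ℝ :=
  ∑ l ∈ Finset.Icc (N - J) (N + J), ∑ s ∈ shps (e + 2) l, (2 : ℝ) ^ (∑ j, min (s j) (q j))

lemma Ls_nonneg (e N J : ℕ) (q : Fin (e + 2) → ℕ) : 0 ≤ Ls e N J q := by
  unfold Ls
  exact Finset.sum_nonneg fun _ _ => Finset.sum_nonneg fun _ _ => by positivity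

/-- `x² exp (2x)` -/
noncomputable def xe (x : ℝ) : ℝ := x ^ 2 * Real.exp (2 * x)

lemma xe_nonneg (x : ℝ) : 0 ≤ xe x := by unfold xe; positivity

lemma xe_mono {x y : ℝ} (h0 : 0 ≤ x) (h : x ≤ y) : xe x ≤ xe y := by
  unfold xe
  refine mul_le_mul (pow_le_pow_left₀ h0 h 2) ?_ (Real.exp_pos _).le (by positivity)
  exact Real.exp_le_exp.2 (by linarith)

lemma pointwise (e m J : ℕ) {C₀ : ℝ} (hC₀ : 0 < C₀) (U : ℝ) (z : Fin (e + 2) → ℝ) :
    xe (Smaj e m C₀ U z) * ‖∑ k ∈ Qmid (e + 2) ((e + 2) * m) J, ex k z‖ ≤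
      xe (Sdis e m (2 ^ (e + 2) * C₀) U (fun j => qd ((e + 2) * m + J) (z j))) *
        (4 ^ (e + 2) * Ls e ((e + 2) * m) J (fun j => qd ((e + 2) * m + J) (z j))) := by
  have h1 := Smaj_le (e := e) (m := m) (M := (e + 2) * m + J) (by omega) hC₀ (U := U) z
  have h0 := Smaj_nonneg e m hC₀ U z
  have h2 := norm_sum_Qmid (e + 2) ((e + 2) * m) J z
  exact mul_le_mul (xe_mono h0 h1) h2 (norm_nonneg _) (xe_nonneg _)

theorem kernel_int
    (kernel_sum : ∀ (e : ℕ) (C₀ : ℝ) (_ : 0 < C₀), ∃ U₀ ≥ (1 : ℝ), ∀ J : ℕ, ∃ C > (0 : ℝ),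
      ∀ m : ℕ, 1 ≤ m → ∀ U ≥ U₀, ∀ M : ℕ,
        ∑ q ∈ Fintype.piFinset (fun _ : Fin (e + 2) => range (M + 1)),
          (1 / 2 : ℝ) ^ (∑ j, q j) * ((Sdis e m C₀ U q) ^ 2 * Real.exp (2 * Sdis e m C₀ U q)) *
            ∑ l ∈ Finset.Icc ((e + 2) * m - J) ((e + 2) * m + J),
              ∑ s ∈ shps (e + 2) l, (2 : ℝ) ^ (∑ j, min (s j) (q j)) ≤
        C * (m : ℝ) ^ (e + 1) / (U ^ 2 * (m : ℝ) ^ e) ^ 2)
    (e : ℕ) (C₀ : ℝ) (hC₀ : 0 < C₀) : ∃ U₀ ≥ (1 : ℝ), ∀ J : ℕ, ∃ C > (0 : ℝ),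
    ∀ m : ℕ, 1 ≤ m → ∀ U ≥ U₀,
      ∫ z, ((Smaj e m C₀ U z) ^ 2 * Real.exp (2 * Smaj e m C₀ U z)) *
        ‖∑ k ∈ Qmid (e + 2) ((e + 2) * m) J, ex k z‖ ∂(tor (e + 2)) ≤
      C * (m : ℝ) ^ (e + 1) / (U ^ 2 * (m : ℝ) ^ e) ^ 2 := by
  obtain ⟨U₀, hU₀, H⟩ := kernel_sum e (2 ^ (e + 2) * C₀) (by positivity)
  refine ⟨U₀, hU₀, fun J => ?_⟩
  obtain ⟨C, hC, H⟩ := H J
  refine ⟨4 ^ (e + 2) * C, by positivity, fun m hm U hU => ?_⟩
  have key := int_le_sum (d := e + 2) ((e + 2) * m + J)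
    (fun z => xe (Smaj e m C₀ U z) * ‖∑ k ∈ Qmid (e + 2) ((e + 2) * m) J, ex k z‖)
    (fun q => xe (Sdis e m (2 ^ (e + 2) * C₀) U q) * (4 ^ (e + 2) * Ls e ((e + 2) * m) J q))
    (fun z => mul_nonneg (xe_nonneg _) (norm_nonneg _))
    (fun q => mul_nonneg (xe_nonneg _) (mul_nonneg (by positivity) (Ls_nonneg _ _ _ _)))
    (fun z => pointwise e m J hC₀ U z)
  refine key.trans ?_
  have H' := H m hm U hU ((e + 2) * m + J)
  have e1 : ∑ q ∈ Fintype.piFinset (fun _ : Fin (e + 2) => range ((e + 2) * m + J + 1)),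
        (1 / 2 : ℝ) ^ (∑ j, q j) * (xe (Sdis e m (2 ^ (e + 2) * C₀) U q) *
          (4 ^ (e + 2) * Ls e ((e + 2) * m) J q)) =
      4 ^ (e + 2) * ∑ q ∈ Fintype.piFinset (fun _ : Fin (e + 2) => range ((e + 2) * m + J + 1)),
        (1 / 2 : ℝ) ^ (∑ j, q j) * xe (Sdis e m (2 ^ (e + 2) * C₀) U q) *
          Ls e ((e + 2) * m) J q := by
    rw [Finset.mul_sum]
    refine Finset.sum_congr rfl fun q _ => ?_
    ring
  rw [e1]
  have h4 : (0 : ℝ) ≤ 4 ^ (e + 2) := by positivity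
  have := mul_le_mul_of_nonneg_left H' h4
  refine this.trans (le_of_eq ?_)
  ring

end Pool.Agent.Helper7.SB.P6
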